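import Pool.Agent.Lib.MP_4a278a_an.Main

set_option autoImplicit false

open MeasureTheory Set
open scoped ENNReal
open Pool.Agent.Lib.MP_4a278a_an

namespace Pool.Agent.Results.MP_4a278a_an.HaarWCGA

/-- For `d ≥ 2`, `1 < p < ∞` and every weakness parameter `t ∈ (0,1]`, the Lebesgue-type inequality
defining almost greediness of the multivariate Haar system for the WCGA holds iff `p = 2`. -/
theorem result (d : ℕ) (hd : 2 ≤ d) (p : ℝ≥0∞) [Fact (1 ≤ p)] (hp1 : 1 < p) (hp : p ≠ ⊤)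
    (t : ℝ) (ht0 : 0 < t) (ht1 : t ≤ 1) :
    LebesgueIneq (haarDict d p) t ↔ p = 2 :=
  main d hd p hp1 hp t ht0 ht1

end Pool.Agent.Results.MP_4a278a_an.HaarWCGA
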